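import Pool.Agent.R60.SW
import Pool.Agent.Results.MP_8cd00c_co.LargeGirth

/-!
# Strong arboricity is at most linear in the arboricity

Every finite graph `G` with arboricity `k ≥ 1` satisfies `ζ(G) ≤ 2 (2 k - 1) = 4 k - 2`. The proof
shows `ζ(G) ≤ 2 d` for every graph with an ordering of its vertices of back-degree at most `d`.
-/

set_option autoImplicit false

namespace Pool.Agent.Results.MP_96bd24_co.LinearBound

open SimpleGraph Pool.Agent.R60.SW
open Pool.Agent.Results.MP_8cd00c_co.LargeGirth (colourClass IsWoody arb WC not_WC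
  colourClass_adj)

/-- in a graph that is a union of `k` forests every nonempty set of vertices contains a vertex with
fewer than `2 k` neighbours in the set -/
lemma exists_small {V : Type} [Finite V] {k : ℕ} (hk : 1 ≤ k) (G : SimpleGraph V) (hG : WC k G)
    (S : Finset V) (hS : S.Nonempty) : ∃ v ∈ S, {w | w ∈ S ∧ G.Adj v w}.ncard ≤ 2 * k - 1 := by
  classical
  obtain ⟨c, hc, hw⟩ := hG
  by_contra hcon
  push Not at hcon
  have : Nonempty S := ⟨⟨hS.choose, hS.choose_spec⟩⟩
  have hT : WC k (G.induce (S : Set V)) := by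
    refine ⟨fun e => c (Sym2.map Subtype.val e), ?_, ?_⟩
    · intro e he
      apply hc
      induction e using Sym2.ind with
      | _ a b =>
        rw [Sym2.map_mk, SimpleGraph.mem_edgeSet]
        exact he
    · intro i
      refine IsAcyclic.anti ?_ ((hw i).induce (S : Set V))
      intro a b hab
      obtain ⟨h1, h2⟩ := colourClass_adj.mp hab
      rw [SimpleGraph.comap_adj]
      refine colourClass_adj.mpr ⟨h1, ?_⟩
      rw [Sym2.map_mk] at h2
      exact h2
  refine not_WC (V := (S : Set V)) hk (G.induce (S : Set V)) ?_ hT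
  rintro ⟨v, hv⟩
  have h1 := hcon v hv
  refine ⟨Finset.univ.filter (fun w : (S : Set V) => G.Adj v w), ?_, ?_⟩
  · have h2 : {w | w ∈ S ∧ G.Adj v w}.ncard ≤
        (Finset.univ.filter (fun w : (S : Set V) => G.Adj v w)).card := by
      rw [← Set.ncard_coe_finset, ← Set.ncard_image_of_injective _ Subtype.val_injective]
      apply Set.ncard_le_ncard _ (Set.toFinite _)
      rintro w ⟨hw1, hw2⟩
      refine ⟨⟨w, hw1⟩, ?_, rfl⟩
      simp [hw2]
    omega
  · intro w hw
    exact (Finset.mem_filter.mp hw).2

/-- an ordering of small back-degree -/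
lemma exists_ordering {V : Type} [Finite V] (G : SimpleGraph V) (D : ℕ)
    (h : ∀ S : Finset V, S.Nonempty → ∃ v ∈ S, {w | w ∈ S ∧ G.Adj v w}.ncard ≤ D) :
    ∀ (n : ℕ) (S : Finset V), S.card = n → ∃ pos : V → ℕ, Set.InjOn pos S ∧
      (∀ v ∈ S, pos v < n) ∧ ∀ v ∈ S, {w | w ∈ S ∧ G.Adj v w ∧ pos w < pos v}.ncard ≤ D := by
  classical
  intro n
  induction n with
  | zero =>
    intro S hS
    rw [Finset.card_eq_zero] at hS
    subst hS
    exact ⟨fun _ => 0, by simp, by simp, by simp⟩
  | succ n ih =>
    intro S hS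
    obtain ⟨v, hv, hvD⟩ := h S (Finset.card_pos.mp (by omega))
    obtain ⟨pos, h1, h2, h3⟩ := ih (S.erase v) (by rw [Finset.card_erase_of_mem hv, hS]; rfl)
    refine ⟨Function.update pos v n, ?_, ?_, ?_⟩
    · intro a ha b hb hab
      by_cases hav : a = v
      · by_cases hbv : b = v
        · rw [hav, hbv]
        · subst hav
          rw [Function.update_self, Function.update_of_ne hbv] at hab
          have := h2 b (Finset.mem_erase.mpr ⟨hbv, hb⟩)
          omega
      · by_cases hbv : b = v
        · subst hbv
          rw [Function.update_self, Function.update_of_ne hav] at hab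
          have := h2 a (Finset.mem_erase.mpr ⟨hav, ha⟩)
          omega
        · rw [Function.update_of_ne hav, Function.update_of_ne hbv] at hab
          exact h1 (Finset.mem_coe.mpr (Finset.mem_erase.mpr ⟨hav, ha⟩))
            (Finset.mem_coe.mpr (Finset.mem_erase.mpr ⟨hbv, hb⟩)) hab
    · intro a ha
      by_cases hav : a = v
      · subst hav
        rw [Function.update_self]
        omega
      · rw [Function.update_of_ne hav]
        have := h2 a (Finset.mem_erase.mpr ⟨hav, ha⟩)
        omega
    · intro a ha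
      by_cases hav : a = v
      · subst hav
        refine (Set.ncard_le_ncard ?_ (Set.toFinite _)).trans hvD
        rintro w ⟨hw1, hw2, -⟩
        exact ⟨hw1, hw2⟩
      · have h4 := h2 a (Finset.mem_erase.mpr ⟨hav, ha⟩)
        refine (Set.ncard_le_ncard ?_ (Set.toFinite _)).trans
          (h3 a (Finset.mem_erase.mpr ⟨hav, ha⟩))
        rintro w ⟨hw1, hw2, hw3⟩
        rw [Function.update_of_ne hav] at hw3
        have hwv : w ≠ v := by
          rintro rfl
          rw [Function.update_self] at hw3
          omega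
        rw [Function.update_of_ne hwv] at hw3
        exact ⟨Finset.mem_erase.mpr ⟨hwv, hw1⟩, hw2, hw3⟩

/-- Every finite graph with arboricity at least `1` (that is, with an edge) satisfies
`ζ(G) ≤ 4 arb(G) - 2`. -/
theorem result (V : Type) [Finite V] (G : SimpleGraph V) (hG : 1 ≤ arb G) :
    strongArb G ≤ 4 * arb G - 2 := by
  classical
  have : Fintype V := Fintype.ofFinite V
  have hWC : WC (arb G) G := by
    by_cases hne : {k | ∃ c : Sym2 V → ℕ, (∀ e ∈ G.edgeSet, c e < k) ∧ IsWoody G c}.Nonempty
    · exact Nat.sInf_mem hne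
    · have : arb G = 0 := by
        unfold arb
        rw [Set.not_nonempty_iff_eq_empty.mp hne, Nat.sInf_empty]
      omega
  obtain ⟨pos, h1, -, h3⟩ := exists_ordering G (2 * arb G - 1)
    (fun S hS => exists_small hG G hWC S hS) _ Finset.univ rfl
  obtain ⟨c, hc1, hc2⟩ := upper G (2 * arb G - 1) pos
    (fun a b hab => h1 (by simp) (by simp) hab) (fun v => by
      refine le_trans (le_of_eq ?_) (h3 v (Finset.mem_univ v))
      congr 1
      ext w
      simp)
  have h4 : strongArb G ≤ 2 * (2 * arb G - 1) := Nat.sInf_le ⟨c, hc1, hc2⟩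
  omega

end Pool.Agent.Results.MP_96bd24_co.LinearBound
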